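import Pool.Agent.FTU.Stmts

/-!
# FTU, row PRO: the profiles of the background
-/

namespace Pool.Agent.FTU.H42

open Pool.Agent.FTU

theorem od_props (w : ℝ) (hw : 1 ≤ w) :
    2 * ((⌊(w - 1) / 2⌋₊ : ℕ) : ℝ) + 1 ≤ w ∧ w ≤ 3 * (2 * ((⌊(w - 1) / 2⌋₊ : ℕ) : ℝ) + 1) := by
  have h0 : 0 ≤ (w - 1) / 2 := by linarith
  have h1 := Nat.floor_le h0
  have h2 := Nat.lt_floor_add_one ((w - 1) / 2)
  have h3 : (0 : ℝ) ≤ ((⌊(w - 1) / 2⌋₊ : ℕ) : ℝ) := Nat.cast_nonneg _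
  constructor <;> linarith

theorem pro (hPFT : PftStmt) (hPFD : PfdStmt) (hTPM : TpmStmt) : ProStmt := by
  intro n
  choose Cj hC0 hC using hPFD
  have hsum : 0 ≤ ∑ j ∈ Finset.range (n + 1), Cj j := Finset.sum_nonneg fun j _ => hC0 j
  have hle : ∀ j ≤ n, Cj j ≤ ∑ j ∈ Finset.range (n + 1), Cj j := fun j hj =>
    Finset.single_le_sum (f := Cj) (fun i _ => hC0 i) (Finset.mem_range.2 (by omega))
  obtain ⟨S, hS⟩ : ∃ S, S = ∑ j ∈ Finset.range (n + 1), Cj j := ⟨_, rfl⟩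
  rw [← hS] at hsum hle
  refine ⟨3 ^ 7 + 4 * S, by positivity, ?_⟩
  intro ell et l het het1 hl hell0
  have het3 : 0 < et ^ 3 := by positivity
  have hv : l ≤ ell * et ^ 3 := (mul_inv_le_iff₀ het3).1 hell0
  have hell : 0 < ell := by
    by_contra h
    push Not at h
    nlinarith
  have hv1 : 1 ≤ ell * et ^ 3 := le_trans hl hv
  have hl0 : 0 < l := by linarith
  have hv2 : 1 ≤ ell * et ^ 3 / l := (one_le_div hl0).2 hv
  obtain ⟨a1, a2⟩ := od_props _ hv1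
  obtain ⟨b1, b2⟩ := od_props _ hv2
  have hMM : ⌊(ell * et ^ 3 / l - 1) / 2⌋₊ ≤ ⌊(ell * et ^ 3 - 1) / 2⌋₊ := by
    apply Nat.floor_mono
    have : ell * et ^ 3 / l ≤ ell * et ^ 3 := div_le_self (by positivity) hl
    linarith
  obtain ⟨M, hM⟩ : ∃ M : ℕ, M = ⌊(ell * et ^ 3 - 1) / 2⌋₊ := ⟨_, rfl⟩
  obtain ⟨M', hM'⟩ : ∃ M' : ℕ, M' = ⌊(ell * et ^ 3 / l - 1) / 2⌋₊ := ⟨_, rfl⟩
  rw [← hM] at a1 a2 hMM
  rw [← hM'] at b1 b2 hMM
  have hMp : (0 : ℝ) < 2 * (M : ℝ) + 1 := by positivity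
  have hMp' : (0 : ℝ) < 2 * (M' : ℝ) + 1 := by positivity
  -- the widths
  have hW1 : (et ^ 3)⁻¹ ≤ ell / (2 * M + 1) := by
    rw [inv_le_iff_one_le_mul₀ het3, div_mul_eq_mul_div, one_le_div hMp]
    exact a1
  have hW2 : ell / (2 * M + 1) ≤ 3 * (et ^ 3)⁻¹ := by
    rw [← div_eq_mul_inv, div_le_div_iff₀ hMp het3]
    exact a2
  have hWp : 0 < ell / (2 * (M : ℝ) + 1) := by positivity
  have hW1' : l * (et ^ 3)⁻¹ ≤ ell / (2 * M' + 1) := by
    rw [← div_eq_mul_inv, div_le_div_iff₀ het3 hMp']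
    rw [le_div_iff₀ hl0] at b1
    linarith
  have hW2' : ell / (2 * M' + 1) ≤ 3 * (l * (et ^ 3)⁻¹) := by
    rw [← div_eq_mul_inv, ← mul_div_assoc, div_le_div_iff₀ hMp' het3]
    rw [div_le_iff₀ hl0] at b2
    linarith
  have hWp' : 0 < ell / (2 * (M' : ℝ) + 1) := by positivity
  have hinv1 : 1 ≤ (et ^ 3)⁻¹ := (one_le_inv₀ het3).2 (pow_le_one₀ het.le het1)
  have hW1one : 1 ≤ ell / (2 * (M : ℝ) + 1) := le_trans hinv1 hW1
  have hlinv : 1 ≤ l * (et ^ 3)⁻¹ := by nlinarith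
  have hW1one' : 1 ≤ ell / (2 * (M' : ℝ) + 1) := le_trans hlinv hW1'
  have hsq : 1 / (ell / (2 * (M : ℝ) + 1)) ^ 2 ≤ et ^ 6 := by
    have h1 : ((et ^ 3)⁻¹) ^ 2 ≤ (ell / (2 * (M : ℝ) + 1)) ^ 2 :=
      pow_le_pow_left₀ (by positivity) hW1 2
    have h2 : 1 / (ell / (2 * (M : ℝ) + 1)) ^ 2 ≤ 1 / ((et ^ 3)⁻¹) ^ 2 :=
      one_div_le_one_div_of_le (by positivity) h1
    have h3 : 1 / ((et ^ 3)⁻¹) ^ 2 = et ^ 6 := by
      rw [inv_pow, one_div, inv_inv]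
      ring
    rw [h3] at h2
    exact h2
  refine ⟨4 * M + 4, fun m => pf ell M m, pf ell M' 0, ?_, ?_, (hPFT ell M' 0 hell (by norm_num)).2,
    ?_, ?_⟩
  · have h1 : (M : ℝ) + 1 ≤ ell * et ^ 3 := by
      have : (0 : ℝ) ≤ (M : ℝ) := Nat.cast_nonneg _
      linarith
    have h2 : 2 * Real.pi / ell * ((4 * M + 4 : ℕ) : ℝ) = 8 * Real.pi * ((M + 1) / ell) := by
      push_cast
      field_simp
      ring
    rw [h2]
    have h3 : ((M : ℝ) + 1) / ell ≤ et ^ 3 := by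
      rw [div_le_iff₀ hell]
      linarith
    exact mul_le_mul_of_nonneg_left h3 (by positivity)
  · intro m hm
    obtain ⟨h1, h2⟩ := hPFT ell M m hell hm
    refine ⟨h2, ?_, ?_⟩
    · refine (hTPM ell hell).1 _ _ _ _ _ le_rfl ?_ h1
      have e1 : (ell / (2 * (M : ℝ) + 1)) ^ (2 * m) / (2 * M + 1) =
          (ell / (2 * (M : ℝ) + 1)) ^ (2 * m + 1) / ell := by
        rw [pow_succ]
        field_simp
      rw [e1]
      apply div_le_div_of_nonneg_right _ hell.le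
      have h3 : (ell / (2 * (M : ℝ) + 1)) ^ (2 * m + 1) ≤ (3 * (et ^ 3)⁻¹) ^ (2 * m + 1) :=
        pow_le_pow_left₀ hWp.le hW2 _
      have h4 : (3 * (et ^ 3)⁻¹) ^ (2 * m + 1) ≤ (3 ^ 7 + 4 * S) * ((et ^ 3)⁻¹) ^ (2 * m + 1) := by
        rw [mul_pow]
        apply mul_le_mul_of_nonneg_right _ (by positivity)
        have h5 : (3 : ℝ) ^ (2 * m + 1) ≤ 3 ^ 7 := pow_le_pow_right₀ (by norm_num) (by omega)
        linarith
      exact le_trans h3 h4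
    · intro j hj
      have h3 := (hC j ell M hell hW1one).1 m hm
      refine le_trans h3 ?_
      rw [div_eq_mul_one_div]
      have h4 : Cj j ≤ 3 ^ 7 + 4 * S := by
        have := hle j hj
        have h7 : (0 : ℝ) ≤ 3 ^ 7 := by positivity
        linarith
      exact mul_le_mul h4 hsq (by positivity) (by positivity)
  · have h1 := (hPFT ell M' 0 hell (by norm_num)).1
    refine (hTPM ell hell).1 _ _ _ _ _ (by omega) ?_ h1
    rw [mul_zero, pow_zero]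
    have e1 : 1 / (2 * (M' : ℝ) + 1) = ell / (2 * M' + 1) / ell := by field_simp
    rw [e1]
    apply div_le_div_of_nonneg_right _ hell.le
    refine le_trans hW2' ?_
    apply mul_le_mul_of_nonneg_right _ (by positivity)
    have : (3 : ℝ) ≤ 3 ^ 7 := by norm_num
    linarith
  · intro j hj z hz
    have h3 := (hC j ell M' hell hW1one').2 z
    refine le_trans h3 ?_
    have h5 : (1 + |z|) ^ 2 ≤ 4 * l ^ 2 := by
      have h6 : 1 + |z| ≤ 2 * l := by linarith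
      have h7 : 0 ≤ 1 + |z| := by positivity
      calc (1 + |z|) ^ 2 ≤ (2 * l) ^ 2 := pow_le_pow_left₀ h7 h6 2
        _ = 4 * l ^ 2 := by ring
    have h6 : (l * (et ^ 3)⁻¹) ^ 2 ≤ (ell / (2 * (M' : ℝ) + 1)) ^ 2 :=
      pow_le_pow_left₀ (by positivity) hW1' 2
    have h7 : Cj j * (1 + |z|) ^ 2 / (ell / (2 * (M' : ℝ) + 1)) ^ 2 ≤
        Cj j * (4 * l ^ 2) / (l * (et ^ 3)⁻¹) ^ 2 := by
      apply div_le_div₀
      · have := hC0 j
        positivity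
      · exact mul_le_mul_of_nonneg_left h5 (hC0 j)
      · positivity
      · exact h6
    refine le_trans h7 ?_
    have e1 : Cj j * (4 * l ^ 2) / (l * (et ^ 3)⁻¹) ^ 2 = 4 * Cj j * et ^ 6 := by
      field_simp
    rw [e1]
    apply mul_le_mul_of_nonneg_right _ (by positivity)
    have h8 := hle j hj
    have h9 : (0 : ℝ) ≤ 3 ^ 7 := by positivity
    linarith

end Pool.Agent.FTU.H42
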